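import Pool.Agent.K7.H32.FT.Stm2

/-!
# Job JQ of project FT: the bound of the right hand side on the circle
-/

set_option autoImplicit false

namespace Pool.Agent.K7.H45.FTJQ

open Finset Matrix Filter Pool.Agent.H550R3.Jones Pool.Agent.W715.VC Pool.Agent.K7.H32.FT
open GapVol (lob)

variable {N : ℕ}

section ops

variable {v : ℂ} {L : ℤ} {K : ℝ}

lemma wtl_abs (s : List (Fin N)) : |wtl s| ≤ s.length * ((N : ℤ) - 1) := by
  induction s with
  | nil => simp
  | cons a s ih =>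
    rw [wtl_cons]
    have h1 := a.2
    have h2 : |(N : ℤ) - 1 - 2 * ((a : ℕ) : ℤ)| ≤ (N : ℤ) - 1 := by
      rw [abs_le]; constructor <;> omega
    calc _ ≤ |(N : ℤ) - 1 - 2 * ((a : ℕ) : ℤ)| + |wtl s| := abs_add_le _ _
      _ ≤ ((N : ℤ) - 1) + s.length * ((N : ℤ) - 1) := add_le_add h2 ih
      _ = _ := by push_cast [List.length_cons]; ring

lemma isum_bd (s : List (Fin N)) : 0 ≤ isum s ∧ isum s ≤ s.length * ((N : ℤ) - 1) := by
  induction s with
  | nil => simp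
  | cons a s ih =>
    rw [isum_cons]
    have h1 := a.2
    have h2 : ((a : ℕ) : ℤ) ≤ (N : ℤ) - 1 := by omega
    constructor
    · have : (0 : ℤ) ≤ (a : ℕ) := Int.natCast_nonneg _
      linarith [ih.1]
    · push_cast [List.length_cons]
      linarith [ih.2]

lemma two_pow (hv : v ≠ 0) (hK : ∀ k : ℤ, |k| ≤ L → ‖v ^ k‖ ≤ K) (j k : ℤ) (h : |j| + |k| ≤ L) :
    ‖v ^ j * br v k‖ ≤ 2 * K := by
  unfold br
  rw [mul_sub, ← zpow_add₀ hv, ← zpow_add₀ hv]
  have h1 := hK (j + k) ((abs_add_le _ _).trans h)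
  have h2 := hK (j + -k) ((abs_add_le _ _).trans (by rw [abs_neg]; exact h))
  calc _ ≤ ‖v ^ (j + k)‖ + ‖v ^ (j + -k)‖ := norm_sub_le _ _
    _ ≤ _ := by linarith

lemma eo_bd (hv : v ≠ 0) (hK : ∀ k : ℤ, |k| ≤ L → ‖v ^ k‖ ≤ K) {B : ℝ} (hB : 0 ≤ B) (hK0 : 0 ≤ K)
    (s : List (Fin N)) : ∀ (f : St N), (s.length : ℤ) * (N : ℤ) + N ≤ L →
      (∀ t : List (Fin N), t.length = s.length → ‖f t‖ ≤ B) →
      ‖eo v f s‖ ≤ s.length * (2 * K) * B := by
  induction s with
  | nil => intro f _ _; rw [eo_nil]; simp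
  | cons a s ih =>
    intro f hL hf
    rw [eo_cons]
    have hN : (0 : ℤ) ≤ N := Int.natCast_nonneg _
    have hL' : (s.length : ℤ) * (N : ℤ) + N ≤ L := by
      push_cast [List.length_cons] at hL
      linarith
    have h1 := ih (cm a f) hL' (fun t ht => by
      rw [cm_apply]
      exact hf _ (by simp [ht]))
    have h2 : ‖(if h : (a : ℕ) + 1 < N then
        br v ((N : ℤ) - 1 - (a : ℕ)) * v ^ (wtl s) * f (⟨a + 1, h⟩ :: s) else 0)‖ ≤ 2 * K * B := by
      split_ifs with h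
      · rw [norm_mul, mul_comm (br v _) (v ^ _)]
        have h3 : |wtl s| + |(N : ℤ) - 1 - (a : ℕ)| ≤ L := by
          have h4 := wtl_abs s
          have h5 : |(N : ℤ) - 1 - (a : ℕ)| ≤ N := by
            rw [abs_le]; constructor <;> omega
          have h6 : (s.length : ℤ) * ((N : ℤ) - 1) ≤ s.length * (N : ℤ) := by
            apply mul_le_mul_of_nonneg_left _ (Int.natCast_nonneg _)
            linarith
          linarith
        exact mul_le_mul (two_pow hv hK _ _ h3) (hf _ (by simp)) (norm_nonneg _) (by linarith)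
      · rw [norm_zero]; positivity
    calc _ ≤ _ := norm_add_le _ _
      _ ≤ 2 * K * B + s.length * (2 * K) * B := add_le_add h2 h1
      _ = _ := by push_cast [List.length_cons]; ring

lemma fo_bd (hv : v ≠ 0) (hK : ∀ k : ℤ, |k| ≤ L → ‖v ^ k‖ ≤ K) {B : ℝ} (hB : 0 ≤ B) (hK0 : 0 ≤ K)
    (s : List (Fin N)) : ∀ (f : St N) (j : ℤ), |j| + (s.length : ℤ) * (N : ℤ) ≤ L →
      (∀ t : List (Fin N), t.length = s.length → ‖f t‖ ≤ B) →
      ‖v ^ j * fo v f s‖ ≤ s.length * (2 * K) * B := by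
  induction s with
  | nil => intro f j _ _; rw [fo_nil]; simp
  | cons a s ih =>
    intro f j hL hf
    have ha := a.2
    have hL1 : |j| + (s.length : ℤ) * (N : ℤ) + N ≤ L := by
      push_cast [List.length_cons] at hL
      linarith
    have hs0 : (0 : ℤ) ≤ (s.length : ℤ) * (N : ℤ) := by positivity
    rw [fo_cons, mul_add, ← mul_assoc, ← zpow_add₀ hv]
    have h1 := ih (cm a f) (j + -((N : ℤ) - 1 - 2 * (a : ℕ))) (by
      have : |-((N : ℤ) - 1 - 2 * ((a : ℕ) : ℤ))| ≤ N := by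
        rw [abs_le]; constructor <;> omega
      have := (abs_add_le j (-((N : ℤ) - 1 - 2 * ((a : ℕ) : ℤ))))
      linarith) (fun t ht => by
      rw [cm_apply]
      exact hf _ (by simp [ht]))
    have h2 : ‖v ^ j * (if h : 0 < (a : ℕ) then
        br v (a : ℕ) * f (⟨a - 1, lt_of_le_of_lt (Nat.sub_le _ _) a.2⟩ :: s) else 0)‖ ≤
          2 * K * B := by
      split_ifs with h
      · rw [← mul_assoc, norm_mul]
        have h3 : |j| + |((a : ℕ) : ℤ)| ≤ L := by
          have h5 : |((a : ℕ) : ℤ)| ≤ N := by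
            rw [abs_le]; constructor <;> omega
          linarith
        exact mul_le_mul (two_pow hv hK _ _ h3) (hf _ (by simp)) (norm_nonneg _) (by linarith)
      · rw [mul_zero, norm_zero]; positivity
    calc _ ≤ _ := norm_add_le _ _
      _ ≤ 2 * K * B + s.length * (2 * K) * B := add_le_add h2 h1
      _ = _ := by push_cast [List.length_cons]; ring

lemma zz_bd (hK : ∀ k : ℤ, |k| ≤ L → ‖v ^ k‖ ≤ K) (n : ℕ) (y : ℤ) (hN : 1 ≤ N) (h0 : 0 ≤ y)
    (h1 : y ≤ n * ((N : ℤ) - 1)) (hL : (n : ℤ) * N + 1 ≤ L) : ‖zz N v n y‖ ≤ 2 * K := by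
  unfold zz
  have h2 : |Pool.Agent.K7.H32.FT.cc N n y| ≤ L := by
    unfold Pool.Agent.K7.H32.FT.cc
    have h3 : (n : ℤ) * ((N : ℤ) - 1) ≤ n * N := by
      apply mul_le_mul_of_nonneg_left _ (Int.natCast_nonneg _)
      linarith
    rw [abs_le]; constructor <;> linarith
  have h3 := hK _ h2
  have h4 := hK (-(Pool.Agent.K7.H32.FT.cc N n y)) (by rw [abs_neg]; exact h2)
  calc _ ≤ _ := norm_add_le _ _
    _ ≤ _ := by linarith

lemma cas_bd (hv : v ≠ 0) (hK : ∀ k : ℤ, |k| ≤ L → ‖v ^ k‖ ≤ K) {B : ℝ} (hB : 0 ≤ B)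
    (hK1 : 1 ≤ K) (n : ℕ) (hN : 1 ≤ N) (hL : (n : ℤ) * N + N ≤ L) (y : ℕ)
    (hy : (y : ℤ) ≤ n * ((N : ℤ) - 1)) (g : St N)
    (hg : ∀ t : List (Fin N), t.length = n → ‖g t‖ ≤ B) (s : List (Fin N)) (hs : s.length = n) :
    ‖(cas N v g - zz N v n y • g) s‖ ≤ ((4 * (n : ℝ) ^ 2 + 4) * K ^ 2) * B := by
  have hN' : (1 : ℤ) ≤ N := by exact_mod_cast hN
  have h1 : (cas N v g - zz N v n y • g) s = fo v (eo v g) s + zz N v n (isum s) * g s -
      zz N v n y * g s := by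
    simp only [Pi.sub_apply, Pi.smul_apply, smul_eq_mul, cas, LinearMap.add_apply,
      LinearMap.comp_apply, Pi.add_apply, mu_apply, hs]
  have h2 : ∀ t : List (Fin N), t.length = s.length → ‖eo v g t‖ ≤ n * (2 * K) * B := by
    intro t ht
    have := eo_bd hv hK hB (by linarith) t g (by rw [ht, hs]; exact hL) (fun u hu => hg u (by
      rw [hu, ht, hs]))
    rwa [ht, hs] at this
  have h3 := fo_bd hv hK (B := n * (2 * K) * B) (by positivity) (by linarith) s (eo v g) 0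
    (by rw [hs, abs_zero]; linarith) h2
  rw [zpow_zero, one_mul, hs] at h3
  have h4 := isum_bd s
  rw [hs] at h4
  have h5 := zz_bd (v := v) hK n (isum s) hN h4.1 h4.2 (by linarith)
  have h6 := zz_bd (v := v) hK n y hN (Int.natCast_nonneg _) hy (by linarith)
  have h7 := hg s hs
  rw [h1]
  have h8 : ‖zz N v n (isum s) * g s‖ ≤ 2 * K * B := by
    rw [norm_mul]
    exact mul_le_mul h5 h7 (norm_nonneg _) (by linarith)
  have h9 : ‖zz N v n y * g s‖ ≤ 2 * K * B := by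
    rw [norm_mul]
    exact mul_le_mul h6 h7 (norm_nonneg _) (by linarith)
  have h10 : ‖fo v (eo v g) s + zz N v n (isum s) * g s - zz N v n y * g s‖ ≤
      ‖fo v (eo v g) s‖ + ‖zz N v n (isum s) * g s‖ + ‖zz N v n y * g s‖ :=
    (norm_sub_le _ _).trans (add_le_add (norm_add_le _ _) le_rfl)
  have h11 : K ≤ K ^ 2 := by nlinarith
  have h12 : K * B ≤ K ^ 2 * B := mul_le_mul_of_nonneg_right h11 hB
  calc _ ≤ _ := h10
    _ ≤ n * (2 * K) * (n * (2 * K) * B) + 2 * K * B + 2 * K * B := by linarith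
    _ ≤ _ := by nlinarith

lemma pc_bd (hv : v ≠ 0) (hK : ∀ k : ℤ, |k| ≤ L → ‖v ^ k‖ ≤ K) {B : ℝ} (hB : 0 ≤ B)
    (hK1 : 1 ≤ K) (n : ℕ) (hN : 1 ≤ N) (hL : (n : ℤ) * N + N ≤ L) (f : St N)
    (hf : ∀ t : List (Fin N), t.length = n → ‖f t‖ ≤ B) (l : List ℕ)
    (hl : ∀ y ∈ l, (y : ℤ) ≤ n * ((N : ℤ) - 1)) :
    ∀ s : List (Fin N), s.length = n →
      ‖pc N v n l f s‖ ≤ ((4 * (n : ℝ) ^ 2 + 4) * K ^ 2) ^ l.length * B := by
  induction l with
  | nil => intro s hs; simpa [pc] using hf s hs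
  | cons y l ih =>
    intro s hs
    have h1 := ih (fun z hz => hl z (List.mem_cons_of_mem _ hz))
    have h2 := cas_bd hv hK (B := ((4 * (n : ℝ) ^ 2 + 4) * K ^ 2) ^ l.length * B) (by positivity)
      hK1 n hN hL y (hl y (List.mem_cons_self ..)) (pc N v n l f) h1 s hs
    have h3 : pc N v n (y :: l) f s =
        (cas N v (pc N v n l f) - zz N v n y • pc N v n l f) s := rfl
    rw [h3]
    refine h2.trans (le_of_eq ?_)
    rw [List.length_cons, pow_succ]
    ring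

end ops

/-! ### the denominators -/

lemma sub_prod {m : ℕ → ℝ} (h0 : ∀ k, 0 ≤ m k) (h1 : ∀ k, m k ≤ 1) (T : ℕ) (S : Finset ℕ)
    (φ : ℕ → ℕ) (hφ : Set.InjOn φ S) (hT : ∀ i ∈ S, φ i < T) :
    ∏ k ∈ range T, m k ≤ ∏ i ∈ S, m (φ i) := by
  classical
  rw [← prod_image (f := m) (fun a ha b hb h => hφ ha hb h)]
  have hs : S.image φ ⊆ range T := by
    intro k hk
    obtain ⟨i, hi, rfl⟩ := mem_image.1 hk
    exact mem_range.2 (hT i hi)
  rw [← prod_sdiff hs]
  have h2 : ∏ k ∈ range T \ S.image φ, m k ≤ 1 := prod_le_one (fun k _ => h0 k) (fun k _ => h1 k)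
  have h3 : 0 ≤ ∏ k ∈ S.image φ, m k := prod_nonneg (fun k _ => h0 k)
  calc _ ≤ 1 * ∏ k ∈ S.image φ, m k := mul_le_mul_of_nonneg_right h2 h3
    _ = _ := one_mul _

lemma br_neg (v : ℂ) (k : ℤ) : br v (-k) = -br v k := by
  unfold br; rw [neg_neg]; ring

lemma zz_sub {v : ℂ} (hv : v ≠ 0) (n : ℕ) (y y' : ℤ) : zz N v n y - zz N v n y' =
    br v (y' - y) * br v (n * ((N : ℤ) - 1) + 1 - y - y') := by
  have e1 : Pool.Agent.K7.H32.FT.cc N n y = (y' - y) + (n * ((N : ℤ) - 1) + 1 - y - y') := by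
    unfold Pool.Agent.K7.H32.FT.cc; ring
  have e2 : Pool.Agent.K7.H32.FT.cc N n y' = (n * ((N : ℤ) - 1) + 1 - y - y') + -(y' - y) := by
    unfold Pool.Agent.K7.H32.FT.cc; ring
  unfold zz br
  rw [e1, e2]
  generalize y' - y = a
  generalize (n : ℤ) * ((N : ℤ) - 1) + 1 - y - y' = b
  have h := zpow_add₀ hv
  have h1 : (v ^ a - v ^ (-a)) * (v ^ b - v ^ (-b)) =
      v ^ a * v ^ b - v ^ a * v ^ (-b) - v ^ (-a) * v ^ b + v ^ (-a) * v ^ (-b) := by ring
  rw [h1, ← h, ← h, ← h, ← h, show -(a + b) = -a + -b by ring, show -(b + -a) = a + -b by ring,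
    show -a + b = b + -a by ring]
  ring

/-- the minimum of `1` and the norm of `{k + 1}` -/
noncomputable def mn (v : ℂ) (k : ℕ) : ℝ := min 1 ‖br v ((k : ℤ) + 1)‖

lemma mn_le (v : ℂ) (k : ℕ) (j : ℤ) (hj : j = (k : ℤ) + 1 ∨ j = -((k : ℤ) + 1)) :
    mn v k ≤ ‖br v j‖ := by
  unfold mn
  rcases hj with rfl | rfl
  · exact min_le_right _ _
  · rw [br_neg, norm_neg]; exact min_le_right _ _

lemma den_bd {v : ℂ} (hv : v ≠ 0) (n : ℕ) (hn : 1 ≤ n) (hN : 1 ≤ N) (y : ℕ) (hy : y < Sn N n + 1) :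
    (∏ k ∈ range (n * N), mn v k) ^ 3 ≤
      ∏ y' ∈ (range (Sn N n + 1)).erase y, ‖zz N v n y - zz N v n y'‖ := by
  have h0 : ∀ k, 0 ≤ mn v k := fun k => le_min zero_le_one (norm_nonneg _)
  have h1 : ∀ k, mn v k ≤ 1 := fun k => min_le_left _ _
  have hP : 0 ≤ ∏ k ∈ range (n * N), mn v k := prod_nonneg (fun k _ => h0 k)
  obtain ⟨M, rfl⟩ : ∃ M, N = M + 1 := ⟨N - 1, by omega⟩
  have hS : 2 * Sn (M + 1) n ≤ n * M := by
    unfold Sn
    rw [Nat.add_sub_cancel]
    exact Nat.mul_div_le _ _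
  have hnM : n * (M + 1) = n * M + n := by ring
  set S := (range (Sn (M + 1) n + 1)).erase y with hSdef
  have hmem : ∀ y' ∈ S, y' ≠ y ∧ y' < Sn (M + 1) n + 1 := by
    intro y' hy'
    rw [hSdef, mem_erase, mem_range] at hy'
    exact hy'
  -- three factors
  have hA : ∏ k ∈ range (n * (M + 1)), mn v k ≤ ∏ y' ∈ S.filter (· < y), mn v (y - y' - 1) := by
    apply sub_prod h0 h1
    · intro a ha b hb h
      simp only [coe_filter, Set.mem_ofPred_eq] at ha hb
      simp only at h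
      omega
    · intro i hi
      rw [mem_filter] at hi
      have := hmem i hi.1
      omega
  have hB : ∏ k ∈ range (n * (M + 1)), mn v k ≤ ∏ y' ∈ S.filter (¬ · < y), mn v (y' - y - 1) := by
    apply sub_prod h0 h1
    · intro a ha b hb h
      simp only [coe_filter, Set.mem_ofPred_eq] at ha hb
      have h3 := hmem a ha.1
      have h4 := hmem b hb.1
      simp only at h
      omega
    · intro i hi
      rw [mem_filter] at hi
      have := hmem i hi.1
      omega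
  have hC : ∏ k ∈ range (n * (M + 1)), mn v k ≤ ∏ y' ∈ S, mn v (n * M - y - y') := by
    apply sub_prod h0 h1
    · intro a ha b hb h
      have h3 := hmem a ha
      have h4 := hmem b hb
      omega
    · intro i hi
      have := hmem i hi
      omega
  have hD : ∏ y' ∈ S, ‖zz (M + 1) v n y - zz (M + 1) v n y'‖ =
      (∏ y' ∈ S, ‖br v ((y' : ℤ) - y)‖) *
        ∏ y' ∈ S, ‖br v ((n : ℤ) * (((M + 1 : ℕ) : ℤ) - 1) + 1 - y - y')‖ := by
    rw [← prod_mul_distrib]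
    refine prod_congr rfl fun y' _ => ?_
    rw [zz_sub hv, norm_mul]
  rw [hD]
  have hE : (∏ k ∈ range (n * (M + 1)), mn v k) ^ 2 ≤ ∏ y' ∈ S, ‖br v ((y' : ℤ) - y)‖ := by
    rw [← prod_filter_mul_prod_filter_not S (· < y), sq]
    refine mul_le_mul (hA.trans ?_) (hB.trans ?_) hP (prod_nonneg fun _ _ => norm_nonneg _)
    · refine prod_le_prod (fun _ _ => h0 _) fun y' hy' => mn_le v _ _ ?_
      rw [mem_filter] at hy'
      right; omega
    · refine prod_le_prod (fun _ _ => h0 _) fun y' hy' => mn_le v _ _ ?_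
      rw [mem_filter] at hy'
      have := hmem y' hy'.1
      left; omega
  have hF : ∏ k ∈ range (n * (M + 1)), mn v k ≤
      ∏ y' ∈ S, ‖br v ((n : ℤ) * (((M + 1 : ℕ) : ℤ) - 1) + 1 - y - y')‖ := by
    refine hC.trans (prod_le_prod (fun _ _ => h0 _) fun y' hy' => mn_le v _ _ ?_)
    have := hmem y' hy'
    left
    push_cast
    rw [show (n : ℤ) * ((M : ℤ) + 1 - 1) = ((n * M : ℕ) : ℤ) by push_cast; ring]
    omega
  rw [pow_succ]
  exact mul_le_mul hE hF hP (prod_nonneg fun _ _ => norm_nonneg _)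

/-- the exponents -/
lemma ee_bd (n : ℕ) (hn : 1 ≤ n) (hN : 1 ≤ N) (y : ℕ) (hy : y < Sn N n + 1) :
    |ee N n y| ≤ 3 * (n : ℤ) ^ 2 * (N : ℤ) ^ 2 := by
  have hS : 2 * Sn N n ≤ n * N := by
    unfold Sn
    refine (Nat.mul_div_le _ _).trans ?_
    exact Nat.mul_le_mul le_rfl (Nat.sub_le _ _)
  have h1 : 2 * (y : ℤ) ≤ n * N := by
    have : 2 * y ≤ n * N := by omega
    exact_mod_cast this
  have h0 : (0 : ℤ) ≤ y := Int.natCast_nonneg _
  have hn' : (1 : ℤ) ≤ n := by exact_mod_cast hn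
  have hN' : (1 : ℤ) ≤ N := by exact_mod_cast hN
  have hnN : (1 : ℤ) ≤ n * N := by nlinarith
  unfold ee
  have e1 : |((N : ℤ) - 1) * n * (n - 1 + 2 * y)| ≤ 2 * (n : ℤ) ^ 2 * (N : ℤ) ^ 2 := by
    have h2 : 0 ≤ ((N : ℤ) - 1) * n * (n - 1 + 2 * y) := by
      apply mul_nonneg (mul_nonneg _ _) _ <;> linarith
    rw [abs_of_nonneg h2]
    have h3 : ((N : ℤ) - 1) * n ≤ N * n := by nlinarith
    have h4 : (n : ℤ) - 1 + 2 * y ≤ n + n * N := by linarith
    have h5 : (n : ℤ) + n * N ≤ 2 * (n * N) := by nlinarith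
    calc _ ≤ (N * n) * (2 * ((n : ℤ) * N)) :=
          mul_le_mul h3 (h4.trans h5) (by linarith) (by nlinarith)
      _ = _ := by ring
  have e2 : |2 * (y : ℤ) * (y - 1)| ≤ (n : ℤ) ^ 2 * (N : ℤ) ^ 2 := by
    have h6 : |2 * (y : ℤ)| ≤ n * N := by rw [abs_of_nonneg (by linarith)]; exact h1
    have h7 : |(y : ℤ) - 1| ≤ n * N := by rw [abs_le]; constructor <;> linarith
    rw [abs_mul]
    calc _ ≤ ((n : ℤ) * N) * (n * N) := mul_le_mul h6 h7 (abs_nonneg _) (by linarith)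
      _ = _ := by ring
  calc _ ≤ |-(((N : ℤ) - 1) * n * (n - 1 + 2 * y))| + |2 * (y : ℤ) * (y - 1)| := abs_add_le _ _
    _ ≤ 2 * (n : ℤ) ^ 2 * (N : ℤ) ^ 2 + (n : ℤ) ^ 2 * (N : ℤ) ^ 2 := by
        rw [abs_neg]; exact add_le_add e1 e2
    _ = _ := by ring

lemma len_filter (m y : ℕ) (hy : y < m + 1) :
    ((List.range (m + 1)).filter (· ≠ y)).length ≤ m := by
  have h : ((List.range (m + 1)).filter (· ≠ y)).length < (List.range (m + 1)).length := by
    rw [List.length_filter_lt_length_iff_exists]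
    exact ⟨y, List.mem_range.2 hy, by simp⟩
  rw [List.length_range] at h
  omega

theorem t_bnd : S_BND := by
  intro hpow hlow n A hn ε hε
  set c : ℝ := 2 * lob (Real.pi / 6) / Real.pi with hc
  have hn0 : (0 : ℝ) < n := by exact_mod_cast hn
  set δ : ℝ := ε / (5 + n) with hδ
  have hδ0 : 0 < δ := by positivity
  have hδe : (5 + n) * δ = ε := by
    rw [hδ]; field_simp
  set M : ℕ := A * (3 * n ^ 2) + n + 1 with hM
  obtain ⟨N₀, hN₀⟩ := exists_nat_gt (2 * (n : ℝ) / δ ^ 2)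
  filter_upwards [hpow M δ hδ0, hlow n δ hδ0, eventually_ge_atTop 1, eventually_ge_atTop N₀]
    with N h1 h2 hN hNN v hv
  have hNr : (1 : ℝ) ≤ N := by exact_mod_cast hN
  have hNz : (1 : ℤ) ≤ N := by exact_mod_cast hN
  have hnz : (1 : ℤ) ≤ n := by exact_mod_cast hn
  have h3 := h1 v (le_of_eq hv)
  have h4 := h2 v hv
  set K : ℝ := Real.exp (δ / N) with hKd
  have hK1 : 1 ≤ K := Real.one_le_exp (by positivity)
  -- the factors are not zero
  have hpos : ∀ k ∈ range (n * N), 0 < min 1 ‖br v ((k : ℤ) + 1)‖ := by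
    have h5 : 0 < ∏ k ∈ range (n * N), min 1 ‖br v ((k : ℤ) + 1)‖ := (Real.exp_pos _).trans_le h4
    intro k hk
    refine lt_of_le_of_ne (le_min zero_le_one (norm_nonneg _)) fun h => ?_
    rw [prod_eq_zero hk h.symm] at h5
    exact lt_irrefl _ h5
  have hbr : ∀ k : ℕ, 0 < k → k ≤ n * N → br v k ≠ 0 := by
    intro k hk hk' h
    have h6 := hpos (k - 1) (mem_range.2 (by omega))
    rw [show (((k - 1 : ℕ) : ℤ) + 1) = (k : ℤ) by omega, h, norm_zero] at h6
    simp at h6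
  have hv0 : v ≠ 0 := by
    rintro rfl
    refine hbr 1 one_pos (by nlinarith) ?_
    simp [br]
  refine ⟨⟨hv0, hbr⟩, fun σ f B hB hf s hs => ?_⟩
  have hSn : 2 * Sn N n ≤ n * (N - 1) := Nat.mul_div_le _ _
  have hML : (n : ℤ) * N + N ≤ M * (N : ℤ) ^ 2 := by
    have e1 : (n : ℤ) + 1 ≤ M := by
      have : n + 1 ≤ M := by rw [hM]; omega
      exact_mod_cast this
    have e2 : (N : ℤ) ≤ (N : ℤ) ^ 2 := by nlinarith
    calc (n : ℤ) * N + N = (n + 1) * N := by ring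
      _ ≤ M * (N : ℤ) ^ 2 := mul_le_mul e1 e2 (by linarith) (Int.natCast_nonneg _)
  -- each term
  set D : ℝ := (4 * (n : ℝ) ^ 2 + 4) with hD
  have hD1 : 1 ≤ D * K ^ 2 := by
    have : 1 ≤ K ^ 2 := one_le_pow₀ hK1
    nlinarith [sq_nonneg (n : ℝ)]
  set P : ℝ := ∏ k ∈ range (n * N), mn v k with hP
  have hP0 : 0 < P := prod_pos hpos
  have hterm : ∀ y ∈ range (Sn N n + 1), ‖v ^ (sgn σ * A * ee N n y) *
      (∏ y' ∈ (range (Sn N n + 1)).erase y, (zz N v n y - zz N v n y'))⁻¹ *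
        pc N v n ((List.range (Sn N n + 1)).filter (· ≠ y)) f s‖ ≤
      K * (P ^ 3)⁻¹ * ((D * K ^ 2) ^ (Sn N n) * B) := by
    intro y hy
    have hy' := mem_range.1 hy
    rw [norm_mul, norm_mul, norm_inv, norm_prod]
    have e1 : ‖v ^ (sgn σ * A * ee N n y)‖ ≤ K := by
      apply h3
      have e2 := ee_bd (N := N) n hn hN y hy'
      have e3 : |sgn σ| ≤ 1 := by unfold sgn; split_ifs <;> simp
      rw [abs_mul, abs_mul, Nat.abs_cast]
      have e4 : |sgn σ| * (A : ℤ) ≤ A := by nlinarith [Int.natCast_nonneg A]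
      calc |sgn σ| * (A : ℤ) * |ee N n y| ≤ A * (3 * (n : ℤ) ^ 2 * (N : ℤ) ^ 2) :=
            mul_le_mul e4 e2 (abs_nonneg _) (Int.natCast_nonneg _)
        _ = (A * (3 * (n : ℤ) ^ 2)) * (N : ℤ) ^ 2 := by ring
        _ ≤ M * (N : ℤ) ^ 2 := by
            apply mul_le_mul_of_nonneg_right _ (sq_nonneg _)
            rw [hM]; push_cast; linarith
    have e5 : (∏ y' ∈ (range (Sn N n + 1)).erase y, ‖zz N v n y - zz N v n y'‖)⁻¹ ≤ (P ^ 3)⁻¹ :=
      inv_anti₀ (by positivity) (den_bd hv0 n hn hN y hy')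
    have e6 := pc_bd hv0 h3 hB hK1 n hN hML f hf
      ((List.range (Sn N n + 1)).filter (· ≠ y)) (fun z hz => by
        have h7 := List.mem_range.1 (List.mem_of_mem_filter hz)
        have h8 : z ≤ n * (N - 1) := by omega
        have h9 : ((n * (N - 1) : ℕ) : ℤ) = n * ((N : ℤ) - 1) := by
          push_cast [Nat.cast_sub hN]; ring
        rw [← h9]; exact_mod_cast h8) s hs
    have e7 : (D * K ^ 2) ^ ((List.range (Sn N n + 1)).filter (· ≠ y)).length ≤
        (D * K ^ 2) ^ (Sn N n) := pow_le_pow_right₀ hD1 (len_filter _ _ hy')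
    have e8 := e6.trans (mul_le_mul_of_nonneg_right e7 hB)
    exact mul_le_mul (mul_le_mul e1 e5 (by positivity) (by linarith)) e8 (norm_nonneg _)
      (by positivity)
  unfold rhs
  have hsum := (norm_sum_le (range (Sn N n + 1)) _).trans (sum_le_sum hterm)
  rw [sum_const, card_range, nsmul_eq_mul] at hsum
  refine hsum.trans ?_
  -- the final estimate
  have hNp : (0 : ℝ) < N := by linarith
  have f1 : ((Sn N n + 1 : ℕ) : ℝ) ≤ Real.exp (N * δ) := by
    have g1 : ((Sn N n + 1 : ℕ) : ℝ) ≤ n * N := by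
      have : Sn N n + 1 ≤ n * N := by
        obtain ⟨R, rfl⟩ : ∃ R, N = R + 1 := ⟨N - 1, by omega⟩
        rw [Nat.add_sub_cancel] at hSn
        have : n * (R + 1) = n * R + n := by ring
        omega
      exact_mod_cast this
    have g2 : (N * δ) ^ 2 / 2 ≤ Real.exp (N * δ) := by
      have := Real.quadratic_le_exp_of_nonneg (x := N * δ) (by positivity)
      nlinarith [show 0 ≤ (N : ℝ) * δ by positivity]
    have g3 : 2 * (n : ℝ) / δ ^ 2 < N := lt_of_lt_of_le hN₀ (by exact_mod_cast hNN)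
    rw [div_lt_iff₀ (by positivity)] at g3
    have g4 : (n : ℝ) * N ≤ (N * δ) ^ 2 / 2 := by nlinarith
    linarith
  have f2 : K ≤ Real.exp (N * δ) := by
    apply Real.exp_le_exp.2
    rw [div_le_iff₀ hNp]
    nlinarith [mul_nonneg hδ0.le (by nlinarith : (0 : ℝ) ≤ (N : ℝ) * N - 1)]
  have f3 : (P ^ 3)⁻¹ ≤ Real.exp (N * (3 * n * c + 3 * δ)) := by
    have g1 : Real.exp (-(N * (3 * n * c + 3 * δ))) ≤ P ^ 3 := by
      have g2 : Real.exp (-(N * (n * c + δ))) ≤ P := h4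
      calc Real.exp (-(N * (3 * n * c + 3 * δ))) = (Real.exp (-(N * (n * c + δ)))) ^ 3 := by
            rw [← Real.exp_nat_mul]; congr 1; push_cast; ring
        _ ≤ P ^ 3 := pow_le_pow_left₀ (Real.exp_pos _).le g2 3
    have g3 := inv_anti₀ (Real.exp_pos _) g1
    rwa [← Real.exp_neg, neg_neg] at g3
  have f4 : (D * K ^ 2) ^ (Sn N n) ≤ Real.exp (N * (n / 2 * Real.log D + n * δ)) := by
    have hD4 : (4 : ℝ) ≤ D := by rw [hD]; nlinarith [sq_nonneg (n : ℝ)]
    have g1 : D * K ^ 2 = Real.exp (Real.log D + 2 * (δ / N)) := by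
      rw [Real.exp_add, Real.exp_log (by linarith), hKd, ← Real.exp_nat_mul]
      norm_num
    rw [g1, ← Real.exp_nat_mul]
    apply Real.exp_le_exp.2
    have g2 : 2 * (Sn N n : ℝ) ≤ n * N := by
      have : 2 * Sn N n ≤ n * N := hSn.trans (Nat.mul_le_mul le_rfl (Nat.sub_le _ _))
      exact_mod_cast this
    have g3 : 0 ≤ Real.log D := Real.log_nonneg (by linarith)
    have g4 : 0 ≤ δ / N := by positivity
    have g5 : (Sn N n : ℝ) * (Real.log D) ≤ (n * N / 2) * Real.log D :=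
      mul_le_mul_of_nonneg_right (by linarith) g3
    have g6 : (Sn N n : ℝ) * (2 * (δ / N)) ≤ (n * N / 2) * (2 * (δ / N)) :=
      mul_le_mul_of_nonneg_right (by linarith) (by linarith)
    have g7 : (n * N / 2) * (2 * (δ / N)) = n * δ := by field_simp
    have g8 : n * δ ≤ N * (n * δ) := by nlinarith [mul_nonneg hn0.le hδ0.le]
    calc (Sn N n : ℝ) * (Real.log D + 2 * (δ / N)) = (Sn N n : ℝ) * (Real.log D) +
          (Sn N n : ℝ) * (2 * (δ / N)) := by ring
      _ ≤ (n * N / 2) * Real.log D + N * (n * δ) := by linarith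
      _ = _ := by ring
  have f5 : Real.exp (N * δ) * (Real.exp (N * δ) * Real.exp (N * (3 * n * c + 3 * δ)) *
      (Real.exp (N * (n / 2 * Real.log D + n * δ)) * B)) =
      Real.exp (N * (n / 2 * Real.log D + 3 * n * c + ε)) * B := by
    rw [← hδe, ← mul_assoc, ← Real.exp_add, ← mul_assoc, ← Real.exp_add, ← Real.exp_add]
    congr 2
    ring
  rw [← f5]
  have k1 : 0 ≤ (D * K ^ 2) ^ (Sn N n) := by positivity
  have k2 : 0 ≤ (P ^ 3)⁻¹ := by positivity
  refine mul_le_mul f1 ?_ (by positivity) (Real.exp_pos _).le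
  exact mul_le_mul (mul_le_mul f2 f3 k2 (Real.exp_pos _).le) (mul_le_mul_of_nonneg_right f4 hB)
    (by positivity) (by positivity)

end Pool.Agent.K7.H45.FTJQ
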